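import Pool.Agent.Lib.MP_72b724_gt.Interfaces

/-!
# MP_72b724_gt, module LABEL: the labelling given by a separating system
-/

open scoped ENNReal Topology BigOperators
open MeasureTheory Set Filter Topology Pool.Agent.Lib.MP_904b2a_gt Pool.Agent.Lib.MP_89fcdb_gt

namespace Pool.Agent.Lib.MP_72b724_gt.H40

noncomputable section

/-! ## The type of a vector -/

theorem typ_none {D : ℕ} {θ : ℝ} {y : Fin D → ℝ} (h : ∀ k, |y k| ≤ θ) : typ θ y = none := by
  unfold typ
  rw [dif_neg]
  rintro ⟨k, hk⟩
  rw [Finset.mem_filter] at hk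
  exact absurd hk.2 (not_lt.mpr (h k))

theorem typ_some {D : ℕ} {θ : ℝ} {y : Fin D → ℝ} {k : Fin D} (h : θ < |y k|)
    (h' : ∀ j, j < k → |y j| ≤ θ) : typ θ y = some (k, decide (0 < y k)) := by
  have hne : (Finset.univ.filter fun k => θ < |y k|).Nonempty :=
    ⟨k, Finset.mem_filter.mpr ⟨Finset.mem_univ _, h⟩⟩
  have hmin : (Finset.univ.filter fun k => θ < |y k|).min' hne = k := by
    apply le_antisymm
    · exact Finset.min'_le _ k (Finset.mem_filter.mpr ⟨Finset.mem_univ k, h⟩)
    · by_contra hlt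
      rw [not_le] at hlt
      have h1 := h' _ hlt
      have h2 := (Finset.mem_filter.mp (Finset.min'_mem _ hne)).2
      exact absurd h2 (not_lt.mpr h1)
  unfold typ
  rw [dif_pos hne, hmin]

section

variable {D N : ℕ} {M : Type} [MetricSpace M] (S : SepSys D N M)

/-! ## The dominating index and the distance to the wall -/

/-- The last index whose function is negative. -/
def lk (k : Fin D) (x : M) : Fin N :=
  open Classical in
  (Finset.univ.filter fun l => S.u k l x < 0).max' (by
    obtain ⟨l, hl⟩ := S.cov k x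
    exact ⟨l, Finset.mem_filter.mpr ⟨Finset.mem_univ _, hl⟩⟩)

variable {S}

theorem lk_neg (k : Fin D) (x : M) : S.u k (lk S k x) x < 0 := by
  classical
  have h := Finset.max'_mem (Finset.univ.filter fun l => S.u k l x < 0) (by
    obtain ⟨l, hl⟩ := S.cov k x
    exact ⟨l, Finset.mem_filter.mpr ⟨Finset.mem_univ _, hl⟩⟩)
  have h2 := (Finset.mem_filter.mp h).2
  unfold lk
  convert h2

theorem lk_le {k : Fin D} {x : M} {l : Fin N} (h : S.u k l x < 0) : l ≤ lk S k x := by
  classical
  have h2 := Finset.le_max' (Finset.univ.filter fun l => S.u k l x < 0) l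
    (Finset.mem_filter.mpr ⟨Finset.mem_univ _, h⟩)
  unfold lk
  convert h2

theorem lk_max {k : Fin D} {x : M} {j : Fin N} (h : lk S k x < j) : 0 ≤ S.u k j x := by
  by_contra h'
  rw [not_le] at h'
  exact absurd (lk_le h') (not_le.mpr h)

theorem lk_eq {k : Fin D} {x : M} {l : Fin N} (h : S.u k l x < 0)
    (h' : ∀ j, l < j → 0 ≤ S.u k j x) : lk S k x = l := by
  apply le_antisymm _ (lk_le h)
  by_contra hlt
  rw [not_le] at hlt
  exact absurd (lk_neg k x) (not_lt.mpr (h' _ hlt))

theorem gk_ne (k : Fin D) (x : M) :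
    ((Finset.univ : Finset (Fin N)).filter fun l => lk S k x ≤ l).Nonempty :=
  ⟨lk S k x, Finset.mem_filter.mpr ⟨Finset.mem_univ _, le_rfl⟩⟩

variable (S)

/-- The distance to the wall. -/
def gk (k : Fin D) (x : M) : ℝ :=
  ((Finset.univ : Finset (Fin N)).filter fun l => lk S k x ≤ l).inf' (gk_ne k x)
    (fun l => |S.u k l x|)

variable {S}

theorem gk_le {k : Fin D} {x : M} {j : Fin N} (h : lk S k x ≤ j) : gk S k x ≤ |S.u k j x| :=
  Finset.inf'_le _ (Finset.mem_filter.mpr ⟨Finset.mem_univ _, h⟩)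

theorem le_gk {k : Fin D} {x : M} {c : ℝ} (h : ∀ j, lk S k x ≤ j → c ≤ |S.u k j x|) :
    c ≤ gk S k x :=
  Finset.le_inf' _ _ fun j hj => h j (Finset.mem_filter.mp hj).2

theorem gk_nonneg (k : Fin D) (x : M) : 0 ≤ gk S k x := le_gk fun _ _ => abs_nonneg _

theorem gk_le_neg (k : Fin D) (x : M) : gk S k x ≤ - S.u k (lk S k x) x := by
  have h := gk_le (S := S) (k := k) (x := x) le_rfl
  rwa [abs_of_neg (lk_neg k x)] at h

theorem gk_le_pos {k : Fin D} {x : M} {j : Fin N} (h : lk S k x < j) :
    gk S k x ≤ S.u k j x := by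
  have h1 := gk_le (S := S) (k := k) (x := x) h.le
  rwa [abs_of_nonneg (lk_max h)] at h1

theorem u_sub_le (k : Fin D) (l : Fin N) (x y : M) : S.u k l x ≤ S.u k l y + dist x y := by
  have h := (S.lip k l).dist_le_mul x y
  rw [Real.dist_eq] at h
  have h1 := (abs_le.mp h).2
  simp only [NNReal.coe_one, one_mul] at h1
  linarith

theorem gk_add_le {k : Fin D} {x y : M} (h : lk S k x ≠ lk S k y) :
    gk S k x + gk S k y ≤ dist x y := by
  rcases lt_or_gt_of_ne h with h | h
  · have h1 := gk_le_pos h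
    have h2 := gk_le_neg (S := S) k y
    have h3 := u_sub_le (S := S) k (lk S k y) x y
    linarith
  · have h1 := gk_le_pos h
    have h2 := gk_le_neg (S := S) k x
    have h3 := u_sub_le (S := S) k (lk S k x) y x
    rw [dist_comm] at h3
    linarith

theorem gk_le_add (k : Fin D) (x y : M) : gk S k x ≤ gk S k y + dist x y := by
  by_cases h : lk S k x = lk S k y
  · have h1 : gk S k x - dist x y ≤ gk S k y := by
      apply le_gk
      intro j hj
      have h2 := gk_le (S := S) (k := k) (x := x) (h.trans_le hj)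
      have h3 := u_sub_le (S := S) k j x y
      have h4 := u_sub_le (S := S) k j y x
      rw [dist_comm y x] at h4
      have h5 : |S.u k j x| ≤ |S.u k j y| + dist x y := by
        rw [abs_le]
        have h6 := le_abs_self (S.u k j y)
        have h7 := neg_abs_le (S.u k j y)
        constructor <;> linarith
      linarith
    linarith
  · have h1 := gk_add_le h
    have h2 := gk_nonneg (S := S) k y
    linarith

theorem gk_continuous (k : Fin D) : Continuous (gk S k) :=
  (LipschitzWith.of_le_add (gk_le_add k)).continuous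

theorem gk_zero {k : Fin D} {x : M} (h : gk S k x = 0) : x ∈ S.wall k := by
  obtain ⟨l, hl, hl'⟩ := Finset.exists_mem_eq_inf' (gk_ne (S := S) k x) (fun l => |S.u k l x|)
  have h0 : |S.u k l x| = 0 := hl'.symm.trans h
  have h1 : S.u k l x = 0 := abs_eq_zero.mp h0
  have h2 : lk S k x ≤ l := (Finset.mem_filter.mp hl).2
  have h3 : lk S k x ≠ l := by
    intro h4
    have h5 := lk_neg (S := S) k x
    rw [h4, h1] at h5
    exact lt_irrefl _ h5
  have h4 : lk S k x < l := lt_of_le_of_ne h2 h3
  exact ⟨l, h1, fun j hj => lk_max (h4.trans hj)⟩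

/-- Points at which all the walls are near are near a crossing point. -/
theorem exists_theta [CompactSpace M] (Z : Finset M)
    (hZ : ∀ x, (∀ k, x ∈ S.wall k) → x ∈ Z) {r : ℝ} (hr : 0 < r) :
    ∃ θ : ℝ, 0 < θ ∧ ∀ x, (∀ k, gk S k x ≤ θ) → ∃ z ∈ Z, dist x z < r := by
  set K : Set M := {x | ∀ z ∈ Z, r ≤ dist x z} with hK
  have hKc : IsCompact K := by
    apply IsClosed.isCompact
    have : K = ⋂ z ∈ Z, {x | r ≤ dist x z} := by
      ext x
      simp [hK]
    rw [this]
    exact isClosed_biInter fun z _ => isClosed_le continuous_const (continuous_id.dist continuous_const)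
  have hG : Continuous fun x => ∑ k, gk S k x := continuous_finsetSum _ fun k _ => gk_continuous k
  have hpos : ∃ m : ℝ, 0 < m ∧ ∀ x ∈ K, m ≤ ∑ k, gk S k x := by
    rcases K.eq_empty_or_nonempty with hE | hne
    · refine ⟨1, one_pos, fun x hx => ?_⟩
      rw [hE] at hx
      exact absurd hx (notMem_empty _)
    · obtain ⟨x₀, hx₀, hmin⟩ := hKc.exists_isMinOn hne hG.continuousOn
      refine ⟨∑ k, gk S k x₀, ?_, fun x hx => hmin hx⟩
      have h0 : 0 ≤ ∑ k, gk S k x₀ := Finset.sum_nonneg fun k _ => gk_nonneg k x₀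
      rcases h0.eq_or_lt with h1 | h1
      · exfalso
        have h2 := (Finset.sum_eq_zero_iff_of_nonneg fun k _ => gk_nonneg (S := S) k x₀).mp h1.symm
        have h3 : x₀ ∈ Z := hZ x₀ fun k => gk_zero (h2 k (Finset.mem_univ _))
        have h4 := hx₀ x₀ h3
        rw [dist_self] at h4
        exact absurd hr (not_lt.mpr h4)
      · exact h1
  obtain ⟨m, hm, hm'⟩ := hpos
  have hD : (0 : ℝ) < (D : ℝ) + 1 := by positivity
  refine ⟨m / (D + 1), by positivity, fun x hx => ?_⟩
  by_contra hcon
  push Not at hcon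
  have h1 := hm' x hcon
  have h2 : ∑ k, gk S k x ≤ ∑ _k : Fin D, m / (D + 1) := Finset.sum_le_sum fun k _ => hx k
  rw [Finset.sum_const, Finset.card_univ, Fintype.card_fin, nsmul_eq_mul] at h2
  have h3 : (D : ℝ) * (m / (D + 1)) < m := by
    rw [mul_div_assoc', div_lt_iff₀ hD]
    nlinarith
  linarith

/-- The local structure at a simple crossing point. -/
theorem local_struct {z : M} {a : Fin D → Fin N} (ha : ∀ k, S.u k (a k) z = 0)
    (ha' : ∀ k j, j ≠ a k → S.u k j z ≠ 0) :
    ∀ᶠ x in 𝓝 z, (∀ k j, j ≠ a k → |S.u k (a k) x| < |S.u k j x| ∧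
      (0 < S.u k j z → 0 < S.u k j x) ∧ (S.u k j z < 0 → S.u k j x < 0)) ∧
      ∀ k, dist x (S.ctr k (a k)) < S.rad k (a k) ∧
        dist x (S.ctr k (lk S k z)) < S.rad k (lk S k z) := by
  have hc : ∀ k l, Continuous (S.u k l) := fun k l => (S.lip k l).continuous
  refine Filter.Eventually.and ?_ ?_
  · rw [Filter.eventually_all]
    intro k
    rw [Filter.eventually_all]
    intro j
    by_cases hj : j = a k
    · exact Filter.Eventually.of_forall fun x h => absurd hj h
    · have h1 : ∀ᶠ x in 𝓝 z, |S.u k (a k) x| < |S.u k j x| := by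
        have h2 : |S.u k (a k) z| < |S.u k j z| := by
          rw [ha k, abs_zero]
          exact abs_pos.mpr (ha' k j hj)
        exact ((hc k (a k)).abs.continuousAt).eventually_lt ((hc k j).abs.continuousAt) h2
      have h2 : ∀ᶠ x in 𝓝 z, (0 < S.u k j z → 0 < S.u k j x) := by
        by_cases h : 0 < S.u k j z
        · exact ((hc k j).continuousAt.eventually_const_lt h).mono fun x hx _ => hx
        · exact Filter.Eventually.of_forall fun x h' => absurd h' h
      have h3 : ∀ᶠ x in 𝓝 z, (S.u k j z < 0 → S.u k j x < 0) := by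
        by_cases h : S.u k j z < 0
        · exact ((hc k j).continuousAt.eventually_lt_const h).mono fun x hx _ => hx
        · exact Filter.Eventually.of_forall fun x h' => absurd h' h
      filter_upwards [h1, h2, h3] with x g1 g2 g3 _
      exact ⟨g1, g2, g3⟩
  · rw [Filter.eventually_all]
    intro k
    have hd : ∀ c : M, Continuous fun x : M => dist x c := fun c =>
      continuous_id.dist continuous_const
    exact ((hd _).continuousAt.eventually_lt_const (S.reg k (a k) z (ha k).le)).and
      ((hd _).continuousAt.eventually_lt_const (S.reg k _ z (lk_neg k z).le))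

/-- The dominating index and the distance to the wall near a simple crossing point. -/
theorem near_struct {z x : M} {k : Fin D} {a : Fin D → Fin N} (hz : z ∈ S.wall k)
    (ha' : ∀ j, j ≠ a k → S.u k j z ≠ 0)
    (hx : ∀ j, j ≠ a k → |S.u k (a k) x| < |S.u k j x| ∧
      (0 < S.u k j z → 0 < S.u k j x) ∧ (S.u k j z < 0 → S.u k j x < 0)) :
    gk S k x = |S.u k (a k) x| ∧
      lk S k x = (if 0 ≤ S.u k (a k) x then lk S k z else a k) ∧ ∀ j, a k < j → 0 < S.u k j x := by
  obtain ⟨l, hl, hl'⟩ := hz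
  have hla : l = a k := by
    by_contra h
    exact ha' l h hl
  rw [← hla] at ha' hx ⊢
  clear hla
  have hgt : ∀ j, l < j → 0 < S.u k j x := fun j hj =>
    (hx j hj.ne').2.1 (lt_of_le_of_ne (hl' j hj) (Ne.symm (ha' j hj.ne')))
  have hbl : lk S k z < l := by
    by_contra h
    rw [not_lt] at h
    have h1 := lk_neg (S := S) k z
    rcases h.eq_or_lt with h2 | h2
    · rw [← h2, hl] at h1
      exact lt_irrefl _ h1
    · exact absurd h1 (not_lt.mpr (hl' _ h2))
  have hlk : lk S k x = (if 0 ≤ S.u k l x then lk S k z else l) := by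
    split_ifs with h
    · apply lk_eq ((hx _ hbl.ne).2.2 (lk_neg k z))
      intro j hj
      by_cases hjl : j = l
      · rw [hjl]
        exact h
      · exact ((hx j hjl).2.1 (lt_of_le_of_ne (lk_max hj) (Ne.symm (ha' j hjl)))).le
    · rw [not_le] at h
      exact lk_eq h fun j hj => (hgt j hj).le
  refine ⟨?_, hlk, hgt⟩
  apply le_antisymm
  · apply gk_le
    rw [hlk]
    split_ifs
    · exact hbl.le
    · exact le_rfl
  · apply le_gk
    intro j _
    by_cases hj : j = l
    · rw [hj]
    · exact (hx j hj).1.le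

end

/-- [LABEL] -/
theorem label (hLoc : LocLinStatement) : LabelStatement := by
  classical
  intro D N hD M _ _ _ vol S Z hZ hSimple r₀ hr₀
  -- the indices
  set a : M → Fin D → Fin N := fun z => if h : S.Simple vol z then h.choose else fun k => lk S k z
    with ha_def
  have haS : ∀ z ∈ Z, (∀ k, S.u k (a z k) z = 0) ∧ (∀ k j, j ≠ a z k → S.u k j z ≠ 0) ∧
      Regular vol (fun x k => S.u k (a z k) x) z := by
    intro z hz
    have h := hSimple z hz
    have h1 : a z = h.choose := by
      rw [ha_def]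
      exact dif_pos h
    rw [h1]
    exact h.choose_spec
  -- the radius
  have hev1 : ∀ z ∈ Z, ∀ᶠ r in 𝓝[>] (0 : ℝ), ∀ x, dist x z < 2 * r →
      (∀ k j, j ≠ a z k → |S.u k (a z k) x| < |S.u k j x| ∧
      (0 < S.u k j z → 0 < S.u k j x) ∧ (S.u k j z < 0 → S.u k j x < 0)) ∧
      ∀ k, dist x (S.ctr k (a z k)) < S.rad k (a z k) ∧
        dist x (S.ctr k (lk S k z)) < S.rad k (lk S k z) := by
    intro z hz
    have h1 := local_struct (haS z hz).1 (haS z hz).2.1
    rw [Metric.eventually_nhds_iff] at h1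
    obtain ⟨ε, hε, hε'⟩ := h1
    have h2 : ∀ᶠ r in 𝓝[>] (0 : ℝ), r < ε / 2 :=
      (eventually_lt_nhds (by positivity : (0 : ℝ) < ε / 2)).filter_mono nhdsWithin_le_nhds
    filter_upwards [h2] with r hr x hx
    exact hε' (by linarith)
  have hev2 : ∀ z ∈ Z, ∀ z' ∈ Z, ∀ᶠ r in 𝓝[>] (0 : ℝ), z ≠ z' → 5 * r ≤ dist z z' := by
    intro z _ z' _
    by_cases h : z = z'
    · exact Filter.Eventually.of_forall fun r h' => absurd h h'
    · have h1 : 0 < dist z z' := dist_pos.mpr h
      have h2 : ∀ᶠ r in 𝓝[>] (0 : ℝ), r < dist z z' / 5 :=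
        (eventually_lt_nhds (by positivity : (0 : ℝ) < dist z z' / 5)).filter_mono
          nhdsWithin_le_nhds
      filter_upwards [h2] with r hr _
      linarith
  have hev3 : ∀ᶠ r in 𝓝[>] (0 : ℝ), r < r₀ / 2 :=
    (eventually_lt_nhds (by positivity : (0 : ℝ) < r₀ / 2)).filter_mono nhdsWithin_le_nhds
  have hev1' := (Filter.eventually_all_finset Z).mpr hev1
  have hev2' := (Filter.eventually_all_finset Z).mpr fun z hz =>
    (Filter.eventually_all_finset Z).mpr (hev2 z hz)
  obtain ⟨r, ⟨⟨h1, h2⟩, h3⟩, hr⟩ := (((hev1'.and hev2').and hev3).and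
    (self_mem_nhdsWithin (a := (0 : ℝ)) (s := Ioi 0))).exists
  have hr : 0 < r := hr
  -- the threshold
  obtain ⟨θ, hθ, hθ'⟩ := exists_theta (S := S) Z (fun x => (hZ x).mp) hr
  -- the structure near the crossing points
  have hnear : ∀ z ∈ Z, ∀ x, dist x z < 2 * r → ∀ k, gk S k x = |S.u k (a z k) x| ∧
      lk S k x = (if 0 ≤ S.u k (a z k) x then lk S k z else a z k) ∧
        ∀ j, a z k < j → 0 < S.u k j x := by
    intro z hz x hx k
    exact near_struct (((hZ z).mpr hz) k) ((haS z hz).2.1 k) ((h1 z hz x hx).1 k)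
  have huniq : ∀ z ∈ Z, ∀ z' ∈ Z, ∀ x, dist x z < 2 * r → dist x z' < 2 * r → z = z' := by
    intro z hz z' hz' x hx hx'
    by_contra hne
    have h4 := h2 z hz z' hz' hne
    have h5 := dist_triangle_left z z' x
    linarith
  have hsmall : ∀ z ∈ Z, ∀ x, dist x z < 2 * r → (∀ k, |S.u k (a z k) x| ≤ θ) →
      dist x z < r := by
    intro z hz x hx hk
    obtain ⟨z', hz', hxz'⟩ := hθ' x fun k => ((hnear z hz x hx k).1).trans_le (hk k)
    have h4 := huniq z hz z' hz' x hx (by linarith)
    rw [h4]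
    exact hxz'
  -- the data
  refine ⟨{
    r := r
    θ := θ
    ε := min r θ
    F := fun z x k => S.u k (a z k) x
    r_pos := hr
    θ_pos := hθ
    ε_pos := lt_min hr hθ
    ε_le := min_le_left _ _
    ε_le' := min_le_right _ _
    sep := h2
    lip := fun z _ k => S.lip k (a z k)
    small := hsmall
    zero := ?_
    loclin := ?_ }, ?_⟩
  · intro z hz x hx hF
    have hxZ : x ∈ Z := by
      rw [← hZ]
      intro k
      exact ⟨a z k, congrFun hF k, fun j hj => ((hnear z hz x hx k).2.2 j hj).le⟩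
    exact (huniq z hz x hxZ x hx (by rw [dist_self]; linarith)).symm
  · intro z hz
    obtain ⟨j, A, hj, hA, hjz, hA0, -, hH⟩ := hLoc D M vol (fun x k => S.u k (a z k) x) z
      (continuous_pi fun k => (S.lip k (a z k)).continuous) (funext (haS z hz).1)
      (haS z hz).2.2 univ isOpen_univ (mem_univ z)
    exact ⟨j, A, hj, hA, hjz, hA0, funext (haS z hz).1, hH⟩
  -- the labels
  set P : M → Fin D → Prop := fun x k => θ < gk S k x ∧ ∀ j, j < k → gk S j x ≤ θ with hP
  have hPuniq : ∀ x k k', P x k → P x k' → k = k' := by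
    intro x k k' hk hk'
    rcases lt_trichotomy k k' with h | h | h
    · exact absurd hk.1 (not_lt.mpr (hk'.2 k h))
    · exact h
    · exact absurd hk'.1 (not_lt.mpr (hk.2 k' h))
  have hPex : ∀ x, ¬ (∀ k, gk S k x ≤ θ) → ∃ k, P x k := by
    intro x hx
    push Not at hx
    have hne : (Finset.univ.filter fun k => θ < gk S k x).Nonempty := by
      obtain ⟨k, hk⟩ := hx
      exact ⟨k, Finset.mem_filter.mpr ⟨Finset.mem_univ k, hk⟩⟩
    refine ⟨(Finset.univ.filter fun k => θ < gk S k x).min' hne,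
      (Finset.mem_filter.mp (Finset.min'_mem _ hne)).2, fun j hj => ?_⟩
    by_contra hcon
    rw [not_le] at hcon
    exact absurd (Finset.min'_le _ j (Finset.mem_filter.mpr ⟨Finset.mem_univ j, hcon⟩))
      (not_le.mpr hj)
  set lab : M → Lab D N M := fun x => if h : ∃ k, P x k then Sum.inr (h.choose, lk S h.choose x)
    else if h' : ∀ k, gk S k x ≤ θ then Sum.inl (hθ' x h').choose else Sum.inl x with hlab
  have hlab1 : ∀ x k, P x k → lab x = Sum.inr (k, lk S k x) := by
    intro x k hk
    have h : ∃ k, P x k := ⟨k, hk⟩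
    have h4 : h.choose = k := hPuniq x _ _ h.choose_spec hk
    rw [hlab]
    simp only
    rw [dif_pos h, h4]
  have hlab2 : ∀ x, (∀ k, gk S k x ≤ θ) → ∃ z ∈ Z, dist x z < r ∧ lab x = Sum.inl z := by
    intro x hx
    have h : ¬ ∃ k, P x k := by
      rintro ⟨k, hk⟩
      exact absurd hk.1 (not_lt.mpr (hx k))
    refine ⟨(hθ' x hx).choose, (hθ' x hx).choose_spec.1, (hθ' x hx).choose_spec.2, ?_⟩
    rw [hlab]
    simp only
    rw [dif_neg h, dif_pos hx]
  have hinr : ∀ x k l, lab x = Sum.inr (k, l) → P x k ∧ l = lk S k x := by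
    intro x k l hxl
    by_cases hx : ∀ k, gk S k x ≤ θ
    · obtain ⟨z, _, _, h4⟩ := hlab2 x hx
      rw [h4] at hxl
      cases hxl
    · obtain ⟨k', hk'⟩ := hPex x hx
      have h4 := hlab1 x k' hk'
      rw [h4] at hxl
      have h5 := Sum.inr.inj hxl
      have h6 : k' = k := congrArg Prod.fst h5
      have h7 : lk S k' x = l := congrArg Prod.snd h5
      subst h6
      exact ⟨hk', h7.symm⟩
  refine ⟨lab, a, fun z k => lk S k z, ?_, ?_, ?_, ?_, ?_, ?_⟩
  · change 2 * r ≤ r₀
    linarith
  · intro x k l hxl y hxy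
    change dist x y < min r θ at hxy
    obtain ⟨hk, hl⟩ := hinr x k l hxl
    have h4 := gk_le_neg (S := S) k x
    have h5 := u_sub_le (S := S) k l y x
    rw [dist_comm] at h5
    rw [← hl] at h4
    have h6 := hk.1
    have h7 := min_le_right r θ
    linarith
  · intro x z hxz
    change z ∈ Z ∧ dist x z < r
    by_cases hx : ∀ k, gk S k x ≤ θ
    · obtain ⟨z', hz', hd, h4⟩ := hlab2 x hx
      rw [h4] at hxz
      have h5 := Sum.inl.inj hxz
      rw [← h5]
      exact ⟨hz', hd⟩
    · obtain ⟨k', hk'⟩ := hPex x hx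
      have h4 := hlab1 x k' hk'
      rw [h4] at hxz
      cases hxz
  · intro x y k l l' hxy hx hy
    change dist x y < min r θ at hxy
    obtain ⟨hk, hl⟩ := hinr x k l hx
    obtain ⟨hk', hl'⟩ := hinr y k l' hy
    rw [hl, hl']
    by_contra hne
    have h4 := gk_add_le hne
    have h5 := hk.1
    have h6 := hk'.1
    have h7 := min_le_right r θ
    linarith
  · intro z hz x hx
    change dist x z < 2 * r at hx
    change lab x = labOf z (a z) (fun k => lk S k z) (typ θ (fun k => S.u k (a z k) x))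
    by_cases hxx : ∀ k, gk S k x ≤ θ
    · obtain ⟨z', hz', hd, h4⟩ := hlab2 x hxx
      have h5 := huniq z hz z' hz' x hx (by linarith)
      rw [typ_none fun k => ((hnear z hz x hx k).1).symm.trans_le (hxx k), h4, ← h5]
      rfl
    · obtain ⟨k, hk⟩ := hPex x hxx
      have h4 := hlab1 x k hk
      obtain ⟨h5, h6, -⟩ := hnear z hz x hx k
      have h7 : θ < |S.u k (a z k) x| := hk.1.trans_eq h5
      rw [typ_some (y := fun k => S.u k (a z k) x) h7
        fun j hj => ((hnear z hz x hx j).1).symm.trans_le (hk.2 j hj), h4, h6]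
      rcases lt_trichotomy (S.u k (a z k) x) 0 with h8 | h8 | h8
      · rw [if_neg (not_le.mpr h8)]
        have h9 : decide (0 < S.u k (a z k) x) = false := decide_eq_false (not_lt.mpr h8.le)
        simp only [h9]
        rfl
      · rw [h8, abs_zero] at h7
        exact absurd hθ (not_lt.mpr h7.le)
      · rw [if_pos h8.le]
        have h9 : decide (0 < S.u k (a z k) x) = true := decide_eq_true h8
        simp only [h9]
        rfl
  · intro z hz k x hx
    exact (h1 z hz x hx).2 k

end

end Pool.Agent.Lib.MP_72b724_gt.H40
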